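import Mathlib

/-!
# A distributed spectral pair which is not a spectral pair

For `M = 24` the sets `A = {0, 3, 18, 21}` and `B = {0, 4, 16, 20}` form a distributed spectral pair
which is a spectral pair neither in the integers modulo `M` nor in the integers modulo `M ^ 2`.
-/

set_option autoImplicit false

namespace Pool.Agent.Results.MP_2c87a3_an.DistributedPair

/-- The Fourier transform of the uniform probability measure on `E`. -/
noncomputable def nuHat (E : Finset ℤ) (ξ : ℝ) : ℂ :=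
  (1 / (E.card : ℂ)) * ∑ a ∈ E, Complex.exp (-(2 * Real.pi * Complex.I * ξ * a))

/-- `(A, B)` is a spectral pair in the integers modulo `N`. -/
def IsSpectralPair (N : ℕ) (A B : Finset ℤ) : Prop :=
  ∀ b ∈ B, ∀ b' ∈ B, b ≠ b' → nuHat A ((b - b') / N) = 0

/-- `(A, B)` is a distributed spectral pair in `{0, …, M - 1}`. -/
def IsDistributed (M : ℕ) (A B : Finset ℤ) : Prop :=
  ∀ b₁ ∈ B, ∀ b₁' ∈ B, b₁ ≠ b₁' → nuHat A ((b₁ - b₁') / M) = 0 ∨
    ∀ b₂ ∈ B, ∀ b₂' ∈ B, nuHat A ((b₁ - b₁') / (M : ℝ) ^ 2 + (b₂ - b₂') / M) = 0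

/-- The first set. -/
def A0 : Finset ℤ := {0, 3, 18, 21}

/-- The second set. -/
def B0 : Finset ℤ := {0, 4, 16, 20}

theorem nuHat_A0 (ξ : ℝ) : nuHat A0 ξ =
    (1 / 4) * ((1 + Complex.exp (-(2 * Real.pi * Complex.I * ξ * 3))) *
      (1 + Complex.exp (-(2 * Real.pi * Complex.I * ξ * 18)))) := by
  have hc : (A0.card : ℂ) = 4 := by
    have : A0.card = 4 := by decide
    rw [this]; norm_num
  unfold nuHat
  rw [hc]
  have h1 : ∑ a ∈ A0, Complex.exp (-(2 * Real.pi * Complex.I * ξ * a)) =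
      Complex.exp (-(2 * Real.pi * Complex.I * ξ * (0 : ℤ))) +
      (Complex.exp (-(2 * Real.pi * Complex.I * ξ * (3 : ℤ))) +
      (Complex.exp (-(2 * Real.pi * Complex.I * ξ * (18 : ℤ))) +
      Complex.exp (-(2 * Real.pi * Complex.I * ξ * (21 : ℤ))))) := by
    unfold A0
    rw [Finset.sum_insert (by decide), Finset.sum_insert (by decide),
      Finset.sum_insert (by decide), Finset.sum_singleton]
  have h2 : Complex.exp (-(2 * Real.pi * Complex.I * ξ * (21 : ℤ))) =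
      Complex.exp (-(2 * Real.pi * Complex.I * ξ * 3)) *
      Complex.exp (-(2 * Real.pi * Complex.I * ξ * 18)) := by
    rw [← Complex.exp_add]; congr 1; push_cast; ring
  rw [h1, h2]
  push_cast
  rw [mul_zero, neg_zero, Complex.exp_zero]
  ring

theorem exp_odd (n : ℤ) : Complex.exp (-(Real.pi * Complex.I * (2 * n + 1))) = -1 := by
  have : -(Real.pi * Complex.I * (2 * n + 1)) =
      ((-n : ℤ) : ℂ) * (2 * Real.pi * Complex.I) + (-(Real.pi * Complex.I)) := by
    push_cast; ring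
  rw [this, Complex.exp_add, Complex.exp_int_mul_two_pi_mul_I, one_mul, Complex.exp_neg,
    Complex.exp_pi_mul_I]
  norm_num

theorem zero_three {ξ : ℝ} (n : ℤ) (h : 6 * ξ = 2 * n + 1) : nuHat A0 ξ = 0 := by
  rw [nuHat_A0]
  have e : -(2 * Real.pi * Complex.I * ξ * 3) = -(Real.pi * Complex.I * (2 * n + 1)) := by
    have : ((6 * ξ : ℝ) : ℂ) = ((2 * n + 1 : ℝ) : ℂ) := by rw [h]
    push_cast at this
    linear_combination (-(Real.pi * Complex.I)) * this
  rw [e, exp_odd]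
  ring

theorem zero_eighteen {ξ : ℝ} (n : ℤ) (h : 36 * ξ = 2 * n + 1) : nuHat A0 ξ = 0 := by
  rw [nuHat_A0]
  have e : -(2 * Real.pi * Complex.I * ξ * 18) = -(Real.pi * Complex.I * (2 * n + 1)) := by
    have : ((36 * ξ : ℝ) : ℂ) = ((2 * n + 1 : ℝ) : ℂ) := by rw [h]
    push_cast at this
    linear_combination (-(Real.pi * Complex.I)) * this
  rw [e, exp_odd]
  ring

theorem four_dvd : ∀ b ∈ B0, ∃ m : ℤ, b = 4 * m := by
  intro b hb
  have : ∀ b ∈ B0, b = 4 * (b / 4) := by decide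
  exact ⟨b / 4, this b hb⟩

theorem cases_diff : ∀ b ∈ B0, ∀ b' ∈ B0, b ≠ b' →
    (b - b') % 8 = 4 ∨ b - b' = 16 ∨ b - b' = -16 := by decide

theorem distributed : IsDistributed 24 A0 B0 := by
  intro b hb b' hb' hne
  rcases cases_diff b hb b' hb' hne with h | h | h
  · left
    have h1 : b - b' = 8 * ((b - b') / 8) + 4 := by omega
    apply zero_three ((b - b') / 8)
    have h2 : ((b : ℝ) - b') = 8 * (((b - b') / 8 : ℤ) : ℝ) + 4 := by exact_mod_cast h1
    push_cast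
    rw [h2]
    ring
  · right
    intro c hc c' hc'
    obtain ⟨m, rfl⟩ := four_dvd c hc
    obtain ⟨m', rfl⟩ := four_dvd c' hc'
    apply zero_eighteen (3 * (m - m'))
    have h2 : ((b : ℝ) - b') = 16 := by exact_mod_cast h
    rw [h2]
    push_cast
    ring
  · right
    intro c hc c' hc'
    obtain ⟨m, rfl⟩ := four_dvd c hc
    obtain ⟨m', rfl⟩ := four_dvd c' hc'
    apply zero_eighteen (3 * (m - m') - 1)
    have h2 : ((b : ℝ) - b') = -16 := by exact_mod_cast h
    rw [h2]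
    push_cast
    ring

theorem exp_ne {r : ℝ} (h : ∀ n : ℤ, r ≠ 2 * n + 1) :
    1 + Complex.exp (-(Real.pi * Complex.I * r)) ≠ 0 := by
  intro h0
  have h1 : Complex.exp (-(Real.pi * Complex.I * r)) = Complex.exp (-(Real.pi * Complex.I)) := by
    rw [Complex.exp_neg (Real.pi * Complex.I), Complex.exp_pi_mul_I]
    norm_num
    linear_combination h0
  rw [Complex.exp_eq_exp_iff_exists_int] at h1
  obtain ⟨n, hn⟩ := h1
  apply h (-n)
  have hpi : (Real.pi : ℂ) * Complex.I ≠ 0 :=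
    mul_ne_zero (by exact_mod_cast Real.pi_ne_zero) Complex.I_ne_zero
  have h2 : (r : ℂ) = 2 * ((-n : ℤ) : ℂ) + 1 := by
    apply mul_left_cancel₀ hpi
    push_cast
    linear_combination (-1 : ℂ) * hn
  exact_mod_cast h2

theorem not_pair : ¬ IsSpectralPair 24 A0 B0 := by
  intro h
  have h1 := h 16 (by decide) 0 (by decide) (by decide)
  rw [nuHat_A0] at h1
  have e1 : -(2 * Real.pi * Complex.I * ((((16 : ℤ) : ℝ) - ((0 : ℤ) : ℝ)) / ((24 : ℕ) : ℝ) : ℝ) * 3) =
      -(Real.pi * Complex.I * ((4 : ℝ) : ℂ)) := by push_cast; ring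
  have e2 : -(2 * Real.pi * Complex.I * ((((16 : ℤ) : ℝ) - ((0 : ℤ) : ℝ)) / ((24 : ℕ) : ℝ) : ℝ) * 18) =
      -(Real.pi * Complex.I * ((24 : ℝ) : ℂ)) := by push_cast; ring
  rw [e1, e2] at h1
  have n1 := exp_ne (r := 4) (fun n hn => by
    have : (4 : ℤ) = 2 * n + 1 := by exact_mod_cast hn
    omega)
  have n2 := exp_ne (r := 24) (fun n hn => by
    have : (24 : ℤ) = 2 * n + 1 := by exact_mod_cast hn
    omega)
  exact mul_ne_zero (by norm_num) (mul_ne_zero n1 n2) h1

theorem not_pair_sq : ¬ IsSpectralPair (24 ^ 2) A0 B0 := by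
  intro h
  have h1 := h 4 (by decide) 0 (by decide) (by decide)
  rw [nuHat_A0] at h1
  have e1 : -(2 * Real.pi * Complex.I * ((((4 : ℤ) : ℝ) - ((0 : ℤ) : ℝ)) / ((24 ^ 2 : ℕ) : ℝ) : ℝ)
      * 3) = -(Real.pi * Complex.I * ((1 / 24 : ℝ) : ℂ)) := by push_cast; ring
  have e2 : -(2 * Real.pi * Complex.I * ((((4 : ℤ) : ℝ) - ((0 : ℤ) : ℝ)) / ((24 ^ 2 : ℕ) : ℝ) : ℝ)
      * 18) = -(Real.pi * Complex.I * ((1 / 4 : ℝ) : ℂ)) := by push_cast; ring
  rw [e1, e2] at h1
  have n1 := exp_ne (r := 1 / 24) (fun n hn => by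
    have h2 : (1 : ℝ) = 24 * (2 * n + 1) := by rw [← hn]; norm_num
    have : (1 : ℤ) = 24 * (2 * n + 1) := by exact_mod_cast h2
    omega)
  have n2 := exp_ne (r := 1 / 4) (fun n hn => by
    have h2 : (1 : ℝ) = 4 * (2 * n + 1) := by rw [← hn]; norm_num
    have : (1 : ℤ) = 4 * (2 * n + 1) := by exact_mod_cast h2
    omega)
  exact mul_ne_zero (by norm_num) (mul_ne_zero n1 n2) h1

/-- There are an integer `M ≥ 3` and sets `A, B` in `{0, …, M - 1}` with the same number of elements,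
which is between `1` and `M`, such that `(A, B)` is a distributed spectral pair but is a spectral pair
neither modulo `M` nor modulo `M ^ 2`. -/
theorem result : ∃ (M : ℕ) (A B : Finset ℤ), 3 ≤ M ∧ (∀ a ∈ A, 0 ≤ a ∧ a < M) ∧
    (∀ b ∈ B, 0 ≤ b ∧ b < M) ∧ A.card = B.card ∧ 1 < A.card ∧ A.card < M ∧
    IsDistributed M A B ∧ ¬ IsSpectralPair M A B ∧ ¬ IsSpectralPair (M ^ 2) A B :=
  ⟨24, A0, B0, by norm_num, by decide, by decide, by decide, by decide, by decide, distributed,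
    not_pair, not_pair_sq⟩

end Pool.Agent.Results.MP_2c87a3_an.DistributedPair
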